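import Pool.Agent.Y947.RL.Stm3

/-! Project RL (helper947): CTW, invariance under twists by roots of unity. -/

set_option autoImplicit false

namespace Pool.Agent.Y950.RL

open Finset Polynomial Module Pool.Agent.H388SL Pool.Agent.Y947.RL

/-- circle averages are invariant under rotations -/
lemma rot (f : ℂ → ℝ) (c : ℂ) (hc : ‖c‖ = 1) :
    Real.circleAverage (fun x => f (c * x)) 0 1 = Real.circleAverage f 0 1 := by
  have h1 : Complex.exp ((Complex.arg c : ℂ) * Complex.I) = c := by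
    have h2 := Complex.norm_mul_exp_arg_mul_I c
    rw [hc, Complex.ofReal_one, one_mul] at h2
    exact h2
  rw [Real.circleAverage_eq_integral_add (f := f) (Complex.arg c), Real.circleAverage_def]
  congr 1
  refine intervalIntegral.integral_congr fun θ _ => ?_
  have h3 : circleMap 0 1 (θ + Complex.arg c) = c * circleMap 0 1 θ := by
    simp only [circleMap, zero_add, Complex.ofReal_one, one_mul]
    push_cast
    rw [add_mul, Complex.exp_add, h1]
    ring
  rw [h3]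

theorem ctw : T_CTW := by
  intro K _ _ m ζ α h k
  have hζ0 : ζ ≠ 0 := h.hζ.ne_zero h.hm.ne'
  have hσζ : ∀ σ : K →ₐ[ℚ] ℂ, (σ ζ) ^ m = 1 := fun σ => by
    rw [← map_pow, h.hζ.pow_eq_one, map_one]
  have hσζ0 : ∀ σ : K →ₐ[ℚ] ℂ, σ ζ ≠ 0 := fun σ h1 => by
    have h2 := hσζ σ
    rw [h1, zero_pow h.hm.ne'] at h2
    exact zero_ne_one h2
  have hnorm : ∀ σ : K →ₐ[ℚ] ℂ, ‖σ ζ‖ = 1 := fun σ =>
    Complex.norm_eq_one_of_pow_eq_one (hσζ σ) h.hm.ne'
  refine ⟨⟨h.hm, h.hζ, ?_, ?_, ?_, ?_, ?_⟩, ?_, ?_⟩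
  · exact ((h.hζ.isIntegral h.hm).pow k).mul h.hα
  · exact mul_ne_zero (pow_ne_zero _ hζ0) h.h0
  · intro n hn he
    refine h.hroot (n * m) (Nat.mul_pos hn h.hm) ?_
    have h1 : ((ζ ^ k * α) ^ n) ^ m = 1 := by rw [he, one_pow]
    have h2 : ((ζ ^ k * α) ^ n) ^ m = (ζ ^ m) ^ (k * n) * α ^ (n * m) := by ring
    rw [h2, h.hζ.pow_eq_one, one_pow, one_mul] at h1
    exact h1
  · intro σ τ h1 h2
    refine h.gen σ τ h1 ?_
    rw [map_mul, map_mul, map_pow, map_pow, h1] at h2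
    exact mul_left_cancel₀ (pow_ne_zero _ (hσζ0 τ)) h2
  · intro j hj σ τ h1 h2
    rw [map_mul, map_mul, map_pow, map_pow, h1, mul_pow, mul_pow] at h2
    have h3 := mul_left_cancel₀ (pow_ne_zero _ (pow_ne_zero _ (hσζ0 τ))) h2
    have h4 := h.inj j hj σ τ h1 h3
    rw [map_mul, map_mul, map_pow, map_pow, h1, h4]
  · unfold lam
    refine Finset.sum_congr rfl fun σ _ => ?_
    rw [map_mul, map_pow, norm_mul, norm_pow, hnorm, one_pow, one_mul]
  · unfold Mp
    congr 1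
    refine Finset.sum_congr rfl fun ω hω => ?_
    have hω' : ω ^ m = 1 := ((mem_primitiveRoots h.hm).1 hω).pow_eq_one
    have hωn : ‖ω‖ = 1 := Complex.norm_eq_one_of_pow_eq_one hω' h.hm.ne'
    have hω0 : ω ≠ 0 := by
      intro h1
      rw [h1, norm_zero] at hωn
      exact zero_ne_one hωn
    have hωk : ω ^ k ≠ 0 := pow_ne_zero _ hω0
    have hc : ‖(ω ^ k)⁻¹‖ = 1 := by rw [norm_inv, norm_pow, hωn, one_pow, inv_one]
    rw [← rot (fun x : ℂ => Real.posLog ‖∏ τ ∈ cls ζ ω, (x - τ α)‖) _ hc]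
    congr 1
    funext x
    congr 1
    rw [norm_prod, norm_prod]
    refine Finset.prod_congr rfl fun τ hτ => ?_
    have hτ' : τ ζ = ω := by
      unfold cls at hτ
      exact (Finset.mem_filter.1 hτ).2
    have h5 : x - τ (ζ ^ k * α) = ω ^ k * ((ω ^ k)⁻¹ * x - τ α) := by
      rw [map_mul, map_pow, hτ', mul_sub, ← mul_assoc, mul_inv_cancel₀ hωk, one_mul]
    rw [h5, norm_mul, norm_pow, hωn, one_pow, one_mul]

end Pool.Agent.Y950.RL
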